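import Pool.Agent.helper64.PC.SpecK

set_option autoImplicit false

namespace Pool.Agent.PC

open Finset Polynomial Pool.Agent.PB

/-- The polynomial of degree `≤ c` with the coefficients `a`. -/
noncomputable def REJ_A {K : Type} [Field K] {c : ℕ} (a : Fin (c + 1) → K) : K[X] := ∑ u, C (a u) * X ^ (u : ℕ)

/-- One factor without the monomial `X^D`. -/
noncomputable def REJ_F {K : Type} [Field K] {c d r : ℕ} (a : Fin r → Fin (c + 1) → K) (θ : Th K d r) (s : K) : K[X] :=
  (∑ u : Fin d, X ^ (u : ℕ) * (C (θ.1 u) + ∑ i, C (θ.2 i u) * REJ_A (a i))) - C s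

theorem REJ_degA {K : Type} [Field K] {c : ℕ} (a : Fin (c + 1) → K) : (REJ_A a).natDegree ≤ c := by
  unfold REJ_A
  refine natDegree_sum_le_of_forall_le _ _ fun u _ => ?_
  exact (natDegree_C_mul_X_pow_le _ _).trans (by have := u.2; omega)

theorem REJ_degF {K : Type} [Field K] {c d r : ℕ} (hd : 1 ≤ d) (a : Fin r → Fin (c + 1) → K) (θ : Th K d r) (s : K) :
    (REJ_F a θ s).natDegree ≤ d + c - 1 := by
  unfold REJ_F
  refine (natDegree_sub_le _ _).trans (max_le ?_ ?_)
  · refine natDegree_sum_le_of_forall_le _ _ fun u _ => ?_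
    refine natDegree_mul_le.trans ?_
    have h1 : (X ^ (u : ℕ) : K[X]).natDegree ≤ d - 1 := by
      rw [natDegree_X_pow]
      have := u.2
      omega
    have h2 : (C (θ.1 u) + ∑ i, C (θ.2 i u) * REJ_A (a i)).natDegree ≤ c := by
      refine (natDegree_add_le _ _).trans (max_le ?_ ?_)
      · rw [natDegree_C]
        exact Nat.zero_le _
      · refine natDegree_sum_le_of_forall_le _ _ fun i _ => ?_
        exact (natDegree_C_mul_le _ _).trans (REJ_degA _)
    omega
  · rw [natDegree_C]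
    exact Nat.zero_le _

theorem REJ_monic {K : Type} [Field K] {c d r : ℕ} (hd : 1 ≤ d) (a : Fin r → Fin (c + 1) → K) (θ : Th K d r) (s : K) :
    (X ^ (d + c) + REJ_F a θ s).Monic ∧ (X ^ (d + c) + REJ_F a θ s).natDegree = d + c := by
  have h1 : (REJ_F a θ s).degree < ((d + c : ℕ) : WithBot ℕ) := by
    refine lt_of_le_of_lt degree_le_natDegree ?_
    have := REJ_degF hd a θ s
    exact_mod_cast (by omega : (REJ_F a θ s).natDegree < d + c)
  refine ⟨monic_X_pow_add h1, ?_⟩
  rw [natDegree_add_eq_left_of_degree_lt (by rw [degree_X_pow]; exact h1), natDegree_X_pow]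

theorem REJ_evalA {K : Type} [Field K] {c r : ℕ} (a : Fin r → Fin (c + 1) → K) (i : Fin r) (α : K) :
    (REJ_A (a i)).eval α = cvF a α i := by
  unfold REJ_A cvF
  rw [eval_finsetSum]
  refine sum_congr rfl fun u _ => ?_
  simp

theorem REJ_evalF {K : Type} [Field K] {c d r : ℕ} (a : Fin r → Fin (c + 1) → K) (θ : Th K d r) (s α : K) (D : ℕ) :
    (X ^ D + REJ_F a θ s).eval α = ev D θ (α, cvF a α) - s := by
  unfold REJ_F ev ev0
  simp only [eval_add, eval_sub, eval_pow, eval_X, eval_finsetSum, eval_mul, eval_C, REJ_evalA]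
  ring

theorem REJ (hSUQ : SUQ_stmt) : REJ_stmt := by
  intro K _ _ _ _ c d r G S ω V hd hG hV hA
  have hq : 1 < Fintype.card K := Fintype.one_lt_card
  set E : ℕ := Fintype.card K - 1 - G * (S.card * (d + c)) with hE
  let R : Pt K r → K := fun z => z.1 ^ E * ∏ g : Fin G, ∏ s ∈ S, (ev (d + c) (ω g) z - s)
  have h0 : ∑ z ∈ V, R z = 0 := by
    refine sum_eq_zero fun z hz => ?_
    obtain ⟨g, hg, hz2⟩ := mem_biUnion.1 (hV hz)
    have hz3 : ev (d + c) (ω g) z ∈ S := (mem_filter.1 hz2).2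
    have h1 : ∏ s ∈ S, (ev (d + c) (ω g) z - s) = 0 := prod_eq_zero hz3 (sub_self _)
    have h2 : ∏ g : Fin G, ∏ s ∈ S, (ev (d + c) (ω g) z - s) = 0 := prod_eq_zero (mem_univ g) h1
    change z.1 ^ E * ∏ g : Fin G, ∏ s ∈ S, (ev (d + c) (ω g) z - s) = 0
    rw [h2, mul_zero]
  have h1 : ∑ z ∈ V, R z = 1 := by
    refine hA R fun a => ?_
    have e1 : ∑ z ∈ grF a, R z = ∑ α : K, R (α, cvF a α) := by
      refine (sum_bij (fun α _ => ((α, cvF a α) : Pt K r)) ?_ ?_ ?_ ?_).symm
      · intro α _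
        exact mem_filter.2 ⟨mem_univ _, rfl⟩
      · intro α _ β _ h
        exact congrArg Prod.fst h
      · intro z hz
        refine ⟨z.1, mem_univ _, ?_⟩
        exact Prod.ext rfl (mem_filter.1 hz).2.symm
      · intro α _
        rfl
    rw [e1]
    let P : K[X] := X ^ E * ∏ g : Fin G, ∏ s ∈ S, (X ^ (d + c) + REJ_F a (ω g) s)
    have hm1 : ∀ g : Fin G, (∏ s ∈ S, (X ^ (d + c) + REJ_F a (ω g) s)).Monic := fun g =>
      monic_prod_of_monic _ _ fun s _ => (REJ_monic hd a (ω g) s).1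
    have hm2 : (∏ g : Fin G, ∏ s ∈ S, (X ^ (d + c) + REJ_F a (ω g) s)).Monic :=
      monic_prod_of_monic _ _ fun g _ => hm1 g
    have hmP : P.Monic := (monic_X_pow E).mul hm2
    have hdP : P.natDegree = Fintype.card K - 1 := by
      have e3 : P.natDegree = E + ∑ g : Fin G, ∑ s ∈ S, (d + c) := by
        change (X ^ E * ∏ g : Fin G, ∏ s ∈ S, (X ^ (d + c) + REJ_F a (ω g) s)).natDegree = _
        rw [(monic_X_pow E).natDegree_mul hm2, natDegree_X_pow, natDegree_prod_of_monic _ _ fun g _ => hm1 g]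
        congr 1
        refine sum_congr rfl fun g _ => ?_
        rw [natDegree_prod_of_monic _ _ fun s _ => (REJ_monic hd a (ω g) s).1]
        exact sum_congr rfl fun s _ => (REJ_monic hd a (ω g) s).2
      rw [e3, sum_const, sum_const, card_univ, Fintype.card_fin, smul_eq_mul, smul_eq_mul, hE]
      omega
    have e4 : ∀ α : K, R (α, cvF a α) = P.eval α := by
      intro α
      change α ^ E * ∏ g : Fin G, ∏ s ∈ S, (ev (d + c) (ω g) (α, cvF a α) - s) =
        (X ^ E * ∏ g : Fin G, ∏ s ∈ S, (X ^ (d + c) + REJ_F a (ω g) s)).eval α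
      rw [eval_mul, eval_pow, eval_X, eval_prod]
      congr 1
      refine prod_congr rfl fun g _ => ?_
      rw [eval_prod]
      exact prod_congr rfl fun s _ => (REJ_evalF a (ω g) s α (d + c)).symm
    rw [sum_congr rfl fun α _ => e4 α, hSUQ K P hmP hdP, CharTwo.neg_eq]
  rw [h0] at h1
  exact zero_ne_one h1

end Pool.Agent.PC
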