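import Pool.Agent.helper64.PC.SpecK

set_option autoImplicit false

namespace Pool.Agent.PC

open Finset Polynomial Pool.Agent.PB

theorem SUQ : SUQ_stmt := by
  intro K _ _ _ P hP hd
  have hq : 1 < Fintype.card K := Fintype.one_lt_card
  have e1 : ∀ α : K, P.eval α = ∑ i ∈ range (Fintype.card K - 1 + 1), P.coeff i * α ^ i := by
    intro α
    rw [Polynomial.eval_eq_sum_range, hd]
  simp_rw [e1]
  rw [sum_comm, sum_range_succ]
  have h0 : ∑ i ∈ range (Fintype.card K - 1), ∑ α : K, P.coeff i * α ^ i = 0 := by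
    refine sum_eq_zero fun i hi => ?_
    rw [← mul_sum, FiniteField.sum_pow_lt_card_sub_one K i (mem_range.1 hi), mul_zero]
  rw [h0, zero_add]
  have hc : P.coeff (Fintype.card K - 1) = 1 := by
    rw [← hd]
    exact hP
  rw [hc]
  simp only [one_mul]
  have e2 : ∀ α : K, α ^ (Fintype.card K - 1) = if α = 0 then 0 else 1 := by
    intro α
    split_ifs with h
    · rw [h]
      exact zero_pow (by omega)
    · exact FiniteField.pow_card_sub_one_eq_one α h
  simp_rw [e2]
  have e3 : (∑ α : K, if α = 0 then (0 : K) else 1) = ((Fintype.card K : ℕ) : K) - 1 := by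
    have h1 : (∑ α : K, if α = 0 then (0 : K) else 1) = ∑ α : K, ((1 : K) - if α = 0 then 1 else 0) := by
      refine sum_congr rfl fun α _ => ?_
      split_ifs <;> simp
    rw [h1, sum_sub_distrib]
    simp
  rw [e3, FiniteField.cast_card_eq_zero, zero_sub]

end Pool.Agent.PC
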