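import Pool.Agent.helper64.PC.SpecK

set_option autoImplicit false

namespace Pool.Agent.PC

open Finset Polynomial Pool.Agent.PB

theorem TRI_aux {K : Type} [Field K] [CharP K 2] {P : Type} [Fintype P] [DecidableEq P] (R : P → K) (A B : Finset P) :
    ∑ z ∈ symmDiff A B, R z = ∑ z ∈ A, R z + ∑ z ∈ B, R z := by
  have e : ∀ s : Finset P, ∑ z ∈ s, R z = ∑ z, if z ∈ s then R z else 0 := by
    intro s
    rw [sum_ite_mem, univ_inter]
  rw [e, e A, e B, ← sum_add_distrib]
  refine sum_congr rfl fun z _ => ?_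
  by_cases hA : z ∈ A <;> by_cases hB : z ∈ B
  · have h : z ∉ symmDiff A B := by simp [mem_symmDiff, hA, hB]
    rw [if_neg h, if_pos hA, if_pos hB, CharTwo.add_self_eq_zero]
  · have h : z ∈ symmDiff A B := by simp [mem_symmDiff, hA, hB]
    rw [if_pos h, if_pos hA, if_neg hB, add_zero]
  · have h : z ∈ symmDiff A B := by simp [mem_symmDiff, hA, hB]
    rw [if_pos h, if_neg hA, if_pos hB, zero_add]
  · have h : z ∉ symmDiff A B := by simp [mem_symmDiff, hA, hB]
    rw [if_neg h, if_neg hA, if_neg hB, add_zero]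

theorem TRI : TRI_stmt := by
  intro K _ _ _ _ c r U V W hU hV hW R hR
  rw [TRI_aux, TRI_aux, hU R hR, hV R hR, hW R hR, CharTwo.add_self_eq_zero, add_zero]

end Pool.Agent.PC
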